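import Mathlib
import Pool.Agent.H.MP_4c7f2d_al.Core

namespace Pool.Agent.Results.MP_4c7f2d_al.Equal

open Pool.Agent.H.MP_4c7f2d_al

theorem result (n : ℕ) (hn : 2 ≤ n) :
    DetSizes (DihedralGroup n) = BaseSizes (DihedralGroup n) ↔
      ¬ ∃ p : ℕ, p.Prime ∧ p ≠ 2 ∧ p ∣ n ∧ ¬ p ^ 2 ∣ n ∧ n ≠ p ∧ n ≠ 2 * p :=
  (full n hn).2.2.2

end Pool.Agent.Results.MP_4c7f2d_al.Equal
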