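import Mathlib
import Pool.Agent.H.MP_4c7f2d_al.Core

namespace Pool.Agent.Results.MP_4c7f2d_al.Sets

open Pool.Agent.H.MP_4c7f2d_al

theorem result (n : ℕ) (hn : 2 ≤ n) :
    BaseSizes (DihedralGroup n) = Set.Icc 1 (n.primeFactors.card + 1) ∧
    ((∃ p : ℕ, p.Prime ∧ p ≠ 2 ∧ p ∣ n ∧ ¬ p ^ 2 ∣ n ∧ n ≠ p ∧ n ≠ 2 * p) →
      DetSizes (DihedralGroup n) = Set.Icc 1 n.primeFactors.card) ∧
    ((¬ ∃ p : ℕ, p.Prime ∧ p ≠ 2 ∧ p ∣ n ∧ ¬ p ^ 2 ∣ n ∧ n ≠ p ∧ n ≠ 2 * p) →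
      DetSizes (DihedralGroup n) = Set.Icc 1 (n.primeFactors.card + 1)) :=
  ⟨(full n hn).1, (full n hn).2.1, (full n hn).2.2.1⟩

end Pool.Agent.Results.MP_4c7f2d_al.Sets
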